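import Pool.Agent.Helper68.VN.GoalsT
import Pool.Agent.Helper86.SGC.SCAL

/-!
# Packet PG-PSDV (MP_a41896_nt): pseudo-division
-/

set_option autoImplicit false

open MvPolynomial

namespace Pool.Agent.Helper41.VN

open Height
open Pool.Agent.Helper92.Ru Pool.Agent.Helper60.HC

noncomputable section

variable {K : Type} [Field K] [NumberField K] {σ : Type}

lemma house_zero' : NumberField.house (0 : K) = 0 := by
  simp [NumberField.house]

lemma house_one' : NumberField.house (1 : K) = 1 := by
  have := NumberField.house_intCast (K := K) 1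
  simpa using this

/-- the sum of the houses of the coefficients -/
def hs (p : MvPolynomial σ K) : ℝ := ∑ s ∈ p.support, NumberField.house (coeff s p)

lemma hs_nonneg (p : MvPolynomial σ K) : 0 ≤ hs p :=
  Finset.sum_nonneg fun _ _ => NumberField.house_nonneg _

lemma hs_eq (p : MvPolynomial σ K) (S : Finset (σ →₀ ℕ)) (h : p.support ⊆ S) :
    hs p = ∑ s ∈ S, NumberField.house (coeff s p) := by
  refine Finset.sum_subset h fun s _ hs => ?_
  rw [notMem_support_iff.1 hs, house_zero']

lemma le_hs (p : MvPolynomial σ K) (s : σ →₀ ℕ) : NumberField.house (coeff s p) ≤ hs p := by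
  by_cases h : s ∈ p.support
  · exact Finset.single_le_sum (f := fun s => NumberField.house (coeff s p))
      (fun _ _ => NumberField.house_nonneg _) h
  · rw [notMem_support_iff.1 h, house_zero']
    exact hs_nonneg p

lemma hs_add (p q : MvPolynomial σ K) : hs (p + q) ≤ hs p + hs q := by
  classical
  rw [hs_eq (p + q) (p.support ∪ q.support) (support_add),
    hs_eq p (p.support ∪ q.support) Finset.subset_union_left,
    hs_eq q (p.support ∪ q.support) Finset.subset_union_right, ← Finset.sum_add_distrib]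
  refine Finset.sum_le_sum fun s _ => ?_
  rw [coeff_add]
  exact NumberField.house_add_le _ _

lemma hs_zero : hs (0 : MvPolynomial σ K) = 0 := by
  simp [hs]

lemma hs_neg (p : MvPolynomial σ K) : hs (-p) = hs p := by
  unfold hs
  rw [support_neg]
  refine Finset.sum_congr rfl fun s _ => ?_
  rw [coeff_neg]
  simp [NumberField.house]

lemma hs_sum {ι : Type} (S : Finset ι) (f : ι → MvPolynomial σ K) :
    hs (∑ i ∈ S, f i) ≤ ∑ i ∈ S, hs (f i) := by
  classical
  induction S using Finset.induction_on with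
  | empty => simp [hs_zero]
  | insert a S ha ih =>
    rw [Finset.sum_insert ha, Finset.sum_insert ha]
    exact (hs_add _ _).trans (by linarith)

lemma hs_monomial (s : σ →₀ ℕ) (c : K) : hs (monomial s c) = NumberField.house c := by
  classical
  rw [hs_eq (monomial s c) {s} support_monomial_subset, Finset.sum_singleton, coeff_monomial,
    if_pos rfl]

lemma hs_mul (p q : MvPolynomial σ K) : hs (p * q) ≤ hs p * hs q := by
  have e : p * q = ∑ s ∈ p.support, ∑ t ∈ q.support,
      monomial (s + t) (coeff s p * coeff t q) := by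
    conv_lhs => rw [p.as_sum, q.as_sum]
    rw [Finset.sum_mul_sum]
    refine Finset.sum_congr rfl fun s _ => Finset.sum_congr rfl fun t _ => ?_
    rw [monomial_mul]
  rw [e]
  refine (hs_sum _ _).trans ?_
  unfold hs
  rw [Finset.sum_mul_sum]
  refine Finset.sum_le_sum fun s _ => ?_
  refine (hs_sum _ _).trans (Finset.sum_le_sum fun t _ => ?_)
  rw [hs_monomial]
  exact NumberField.house_mul_le _ _

lemma hs_one : hs (1 : MvPolynomial σ K) = 1 := by
  have := hs_monomial (K := K) (σ := σ) 0 1
  rw [house_one'] at this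
  rw [← this]
  rfl

lemma hs_pow (p : MvPolynomial σ K) (k : ℕ) : hs (p ^ k) ≤ hs p ^ k := by
  induction k with
  | zero => rw [pow_zero, pow_zero, hs_one]
  | succ k ih =>
    rw [pow_succ, pow_succ]
    exact (hs_mul _ _).trans (mul_le_mul_of_nonneg_right ih (hs_nonneg p))

/-- integral coefficients -/
def Ig (p : MvPolynomial σ K) : Prop := ∀ s, IsIntegral ℤ (coeff s p)

lemma Ig.add {p q : MvPolynomial σ K} (hp : Ig p) (hq : Ig q) : Ig (p + q) := fun s => by
  rw [coeff_add]
  exact (hp s).add (hq s)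

lemma Ig.neg {p : MvPolynomial σ K} (hp : Ig p) : Ig (-p) := fun s => by
  rw [coeff_neg]
  exact (hp s).neg

lemma Ig.mul {p q : MvPolynomial σ K} (hp : Ig p) (hq : Ig q) : Ig (p * q) := fun s => by
  classical
  rw [coeff_mul]
  exact IsIntegral.sum _ fun x _ => (hp _).mul (hq _)

lemma Ig.zero : Ig (0 : MvPolynomial σ K) := fun s => by
  rw [coeff_zero]
  exact isIntegral_zero

lemma Ig.one : Ig (1 : MvPolynomial σ K) := fun s => by
  classical
  rw [coeff_one]
  split_ifs
  · exact isIntegral_one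
  · exact isIntegral_zero

lemma Ig.pow {p : MvPolynomial σ K} (hp : Ig p) (k : ℕ) : Ig (p ^ k) := by
  induction k with
  | zero => rw [pow_zero]; exact Ig.one
  | succ k ih => rw [pow_succ]; exact ih.mul hp

/-! ## The slices -/

/-- the coefficient of `X_i^k` -/
def sl [DecidableEq σ] (i : σ) (k : ℕ) (g : MvPolynomial σ K) : MvPolynomial σ K :=
  ∑ s ∈ g.support.filter (fun s => s i = k), monomial (s.erase i) (coeff s g)

lemma coeff_sl [DecidableEq σ] (i : σ) (k : ℕ) (g : MvPolynomial σ K) (t : σ →₀ ℕ) :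
    coeff t (sl i k g) = if t i = 0 then coeff (t + Finsupp.single i k) g else 0 := by
  unfold sl
  rw [coeff_sum]
  simp only [coeff_monomial]
  have key : ∀ s : σ →₀ ℕ, s i = k → (s.erase i = t ↔ t i = 0 ∧ s = t + Finsupp.single i k) := by
    intro s hs
    constructor
    · intro h
      refine ⟨by rw [← h]; simp, ?_⟩
      rw [← h]
      ext j
      by_cases hj : j = i
      · subst hj
        simp [hs]
      · simp [Finsupp.erase_ne hj, Ne.symm hj]
    · rintro ⟨h0, h⟩
      rw [h]
      ext j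
      by_cases hj : j = i
      · subst hj
        simp [h0]
      · simp [Finsupp.erase_ne hj, Finsupp.single_apply, Ne.symm hj]
  split_ifs with h0
  · by_cases h1 : t + Finsupp.single i k ∈ g.support
    · rw [Finset.sum_eq_single (t + Finsupp.single i k)]
      · rw [if_pos]
        rw [key _ (by simp [h0])]
        exact ⟨h0, rfl⟩
      · intro s hs hne
        rw [if_neg]
        rw [key s (Finset.mem_filter.1 hs).2]
        exact fun h => hne h.2
      · intro h
        exact absurd (Finset.mem_filter.2 ⟨h1, by simp [h0]⟩) h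
    · rw [notMem_support_iff.1 h1]
      refine Finset.sum_eq_zero fun s hs => ?_
      rw [if_neg]
      rw [key s (Finset.mem_filter.1 hs).2]
      rintro ⟨_, h⟩
      exact h1 (h ▸ (Finset.mem_filter.1 hs).1)
  · refine Finset.sum_eq_zero fun s hs => ?_
    rw [if_neg]
    rw [key s (Finset.mem_filter.1 hs).2]
    exact fun h => h0 h.1

lemma eq_sum_sl [DecidableEq σ] (i : σ) (g : MvPolynomial σ K) (D : ℕ)
    (hD : g.degreeOf i ≤ D) : g = ∑ k ∈ Finset.range (D + 1), sl i k g * X i ^ k := by
  have e : ∀ k, sl i k g * X i ^ k = ∑ s ∈ g.support.filter (fun s => s i = k),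
      monomial s (coeff s g) := by
    intro k
    unfold sl
    rw [Finset.sum_mul]
    refine Finset.sum_congr rfl fun s hs => ?_
    rw [X_pow_eq_monomial, monomial_mul, mul_one]
    congr 2
    rw [← (Finset.mem_filter.1 hs).2]
    exact Finsupp.erase_add_single i s
  simp only [e]
  conv_lhs => rw [g.as_sum]
  rw [← Finset.sum_fiberwise_of_maps_to (g := fun s : σ →₀ ℕ => s i)]
  intro s hs
  have := (degreeOf_le_iff.1 hD) s hs
  exact Finset.mem_range.2 (by omega)

lemma sl_support [DecidableEq σ] {i : σ} {k : ℕ} {g : MvPolynomial σ K} {t : σ →₀ ℕ}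
    (h : t ∈ (sl i k g).support) : t i = 0 ∧ t + Finsupp.single i k ∈ g.support := by
  have h1 := mem_support_iff.1 h
  rw [coeff_sl] at h1
  split_ifs at h1 with h0
  · exact ⟨h0, mem_support_iff.2 h1⟩
  · exact absurd rfl h1

lemma degreeOf_sl [DecidableEq σ] (i : σ) (k : ℕ) (g : MvPolynomial σ K) (h : σ) :
    (sl i k g).degreeOf h ≤ g.degreeOf h := by
  rw [degreeOf_le_iff]
  intro t ht
  have h1 := (degreeOf_le_iff.1 (le_refl (g.degreeOf h))) _ (sl_support ht).2
  rw [Finsupp.add_apply] at h1
  omega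

lemma degreeOf_sl_self [DecidableEq σ] (i : σ) (k : ℕ) (g : MvPolynomial σ K) :
    (sl i k g).degreeOf i = 0 := by
  rw [← Nat.le_zero, degreeOf_le_iff]
  intro t ht
  exact (sl_support ht).1.le

lemma sl_eq_zero [DecidableEq σ] (i : σ) (k : ℕ) (g : MvPolynomial σ K)
    (hk : g.degreeOf i < k) : sl i k g = 0 := by
  ext t
  rw [coeff_sl, coeff_zero]
  split_ifs with h0
  · by_contra hne
    have h1 := (degreeOf_le_iff.1 (le_refl (g.degreeOf i))) _ (mem_support_iff.2 hne)
    rw [Finsupp.add_apply, Finsupp.single_eq_same] at h1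
    omega
  · rfl

lemma PH_sl [DecidableEq σ] (i : σ) (k : ℕ) (g : MvPolynomial σ K) : PH (sl i k g) ≤ PH g := by
  unfold PH
  have e : (fun e : (sl i k g).support => coeff e.1 (sl i k g)) =
      (fun e : g.support => coeff e.1 g) ∘ fun e : (sl i k g).support =>
        (⟨e.1 + Finsupp.single i k, (sl_support e.2).2⟩ : g.support) := by
    funext t
    show coeff t.1 (sl i k g) = coeff (t.1 + Finsupp.single i k) g
    rw [coeff_sl, if_pos (sl_support t.2).1]
  rw [e]
  exact mulHeight_comp_le _ _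

/-! ## Scaling -/

lemma card_support' [Fintype σ] (D : ℕ) (f : MvPolynomial σ K)
    (hD : ∀ i, f.degreeOf i ≤ D) : f.support.card ≤ (D + 1) ^ Fintype.card σ := by
  classical
  have h : f.support.card ≤ (Fintype.piFinset fun _ : σ => Finset.range (D + 1)).card := by
    apply Finset.card_le_card_of_injOn (fun s : σ →₀ ℕ => (s : σ → ℕ))
    · intro s hs
      have h0 := fun i => (degreeOf_le_iff.1 (hD i)) s hs
      simp only [Finset.mem_coe, Fintype.mem_piFinset, Finset.mem_range]
      intro i
      have := h0 i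
      omega
    · intro s _ t _ hst
      exact DFunLike.coe_injective hst
  rw [Fintype.card_piFinset, Finset.prod_const, Finset.card_range, Finset.card_univ] at h
  exact h

theorem scal' [Fintype σ] (D : ℕ) (f : MvPolynomial σ K) (hf : f ≠ 0)
    (hD : ∀ i, f.degreeOf i ≤ D) : ∃ r : K, r ≠ 0 ∧ ∀ s, IsIntegral ℤ (r * coeff s f) ∧
      NumberField.house (r * coeff s f) ≤ PH f ^ ((D + 1) ^ Fintype.card σ + 1) := by
  classical
  obtain ⟨s0, hs0⟩ : f.support.Nonempty := by
    rw [Finset.nonempty_iff_ne_empty]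
    intro h
    exact hf (support_eq_empty.1 h)
  have hc0 : coeff s0 f ≠ 0 := mem_support_iff.1 hs0
  obtain ⟨c0, hc⟩ : ∃ c0, c0 = coeff s0 f := ⟨_, rfl⟩
  rw [← hc] at hc0
  obtain ⟨H, hH⟩ : ∃ H, H = PH f := ⟨_, rfl⟩
  rw [← hH]
  have h1 : mulHeight (fun e : f.support => c0⁻¹ * coeff e.1 f) = H := by
    rw [hH]
    exact mulHeight_smul_eq_mulHeight (fun e : f.support => coeff e.1 f) (inv_ne_zero hc0)
  have hH1 : 1 ≤ H := by
    rw [hH]
    exact one_le_mulHeight _
  have h2 : ∀ s ∈ f.support, mulHeight₁ (c0⁻¹ * coeff s f) ≤ H := by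
    intro s hs
    rw [mulHeight₁_eq_mulHeight, ← h1]
    have e : ![c0⁻¹ * coeff s f, 1] = (fun e : f.support => c0⁻¹ * coeff e.1 f) ∘
        ![(⟨s, hs⟩ : f.support), ⟨s0, hs0⟩] := by
      ext i
      fin_cases i
      · rfl
      · show (1 : K) = c0⁻¹ * coeff s0 f
        rw [← hc, inv_mul_cancel₀ hc0]
    rw [e]
    exact mulHeight_comp_le _ _
  choose n hn0 hnle hnint using fun s => NumberField.exists_nat_le_mulHeight₁ (c0⁻¹ * coeff s f)
  obtain ⟨N, hN⟩ : ∃ N, N = ∏ s ∈ f.support, n s := ⟨_, rfl⟩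
  have hN0 : N ≠ 0 := by
    rw [hN]
    exact Finset.prod_ne_zero_iff.2 fun s _ => hn0 s
  have hNle : (N : ℝ) ≤ H ^ ((D + 1) ^ Fintype.card σ) := by
    rw [hN]
    push_cast
    calc ∏ s ∈ f.support, (n s : ℝ) ≤ ∏ s ∈ f.support, H :=
          Finset.prod_le_prod (fun s _ => Nat.cast_nonneg _) (fun s hs => (hnle s).trans (h2 s hs))
      _ = H ^ f.support.card := by rw [Finset.prod_const]
      _ ≤ H ^ ((D + 1) ^ Fintype.card σ) := pow_le_pow_right₀ hH1 (card_support' D f hD)
  refine ⟨N * c0⁻¹, mul_ne_zero (Nat.cast_ne_zero.2 hN0) (inv_ne_zero hc0), fun s => ?_⟩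
  rw [mul_assoc]
  by_cases hs : s ∈ f.support
  · constructor
    · have e : (N : K) * (c0⁻¹ * coeff s f) =
          ((∏ t ∈ f.support.erase s, n t : ℕ) : K) * (n s * (c0⁻¹ * coeff s f)) := by
        rw [hN, ← Finset.prod_erase_mul _ _ hs]
        push_cast
        ring
      rw [e]
      refine IsIntegral.mul ?_ (hnint s)
      have := isIntegral_algebraMap (R := ℤ) (A := K) (x := ((∏ t ∈ f.support.erase s, n t : ℕ) : ℤ))
      simpa using this
    · rw [NumberField.house_nat_mul, pow_succ]
      exact mul_le_mul hNle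
        ((Pool.Agent.Helper86.SGC.house_le_mulHeight₁ _).trans (h2 s hs))
        (NumberField.house_nonneg _) (by positivity)
  · have e : coeff s f = 0 := notMem_support_iff.1 hs
    rw [e, mul_zero, mul_zero]
    refine ⟨isIntegral_zero, ?_⟩
    rw [house_zero']
    positivity

/-! ## The division -/

/-- one division step: from `u^k x^k = ∑ b_t x^t` to `k + 1` -/
lemma step (x u : K) (dd : ℕ) (α b : ℕ → K) (v : K)
    (hrel : ∑ t ∈ Finset.range (dd + 1), α t * x ^ t + u * x ^ (dd + 1) = 0)
    (hb : v = ∑ t ∈ Finset.range (dd + 1), b t * x ^ t) :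
    u * (v * x) = ∑ t ∈ Finset.range (dd + 1),
      ((if t = 0 then 0 else u * b (t - 1)) - b dd * α t) * x ^ t := by
  have h1 : ∑ t ∈ Finset.range (dd + 1), (if t = 0 then 0 else u * b (t - 1)) * x ^ t =
      ∑ t ∈ Finset.range dd, u * b t * x ^ (t + 1) := by
    rw [Finset.sum_range_succ']
    simp
  have h2 : u * (v * x) = ∑ t ∈ Finset.range dd, u * b t * x ^ (t + 1) +
      b dd * (u * x ^ (dd + 1)) := by
    rw [hb, Finset.sum_range_succ, add_mul, mul_add, Finset.sum_mul, Finset.mul_sum]
    congr 1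
    · refine Finset.sum_congr rfl fun t _ => ?_
      ring
    · ring
  have h3 : u * x ^ (dd + 1) = - ∑ t ∈ Finset.range (dd + 1), α t * x ^ t := by
    linear_combination hrel
  rw [h2, h3]
  simp only [sub_mul]
  rw [Finset.sum_sub_distrib, h1, sub_eq_add_neg]
  congr 1
  rw [mul_neg, Finset.mul_sum]
  congr 1
  refine Finset.sum_congr rfl fun t _ => ?_
  ring

lemma division (I0 : Finset σ) (D0 dd : ℕ) (x0 : σ → K) (x : K) (H : ℝ) (hH : 1 ≤ H)
    (a : ℕ → MvPolynomial σ K) (hdeg : ∀ k h, (a k).degreeOf h ≤ D0)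
    (hoff : ∀ k h, h ∉ I0 → (a k).degreeOf h = 0) (hi : ∀ k, Ig (a k)) (hh : ∀ k, hs (a k) ≤ H)
    (hrel : ∑ t ∈ Finset.range (dd + 1), eval x0 (a t) * x ^ t +
      eval x0 (a (dd + 1)) * x ^ (dd + 1) = 0) (k : ℕ) :
    ∃ b : ℕ → MvPolynomial σ K, (∀ t h, (b t).degreeOf h ≤ k * D0) ∧
      (∀ t h, h ∉ I0 → (b t).degreeOf h = 0) ∧ (∀ t, Ig (b t)) ∧
      (∀ t, hs (b t) ≤ (2 * H) ^ k) ∧
      eval x0 (a (dd + 1)) ^ k * x ^ k = ∑ t ∈ Finset.range (dd + 1), eval x0 (b t) * x ^ t := by
  induction k with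
  | zero =>
    refine ⟨fun t => if t = 0 then 1 else 0, ?_, ?_, ?_, ?_, ?_⟩
    · intro t h
      dsimp only
      split_ifs
      · rw [degreeOf_one]; exact Nat.zero_le _
      · rw [degreeOf_zero]; exact Nat.zero_le _
    · intro t h _
      dsimp only
      split_ifs
      · exact degreeOf_one h
      · exact degreeOf_zero h
    · intro t
      dsimp only
      split_ifs
      · exact Ig.one
      · exact Ig.zero
    · intro t
      dsimp only
      rw [pow_zero]
      split_ifs
      · exact hs_one.le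
      · rw [hs_zero]; exact zero_le_one
    · rw [pow_zero, pow_zero, mul_one, Finset.sum_range_succ']
      simp
  | succ k ih =>
    obtain ⟨b, b1, b2, b3, b4, b5⟩ := ih
    have hk0 : (0 : ℝ) ≤ (2 * H) ^ k := by positivity
    refine ⟨fun t => (if t = 0 then 0 else a (dd + 1) * b (t - 1)) + -(b dd * a t),
      ?_, ?_, ?_, ?_, ?_⟩
    · intro t h
      dsimp only
      have e2 : (-(b dd * a t)).degreeOf h ≤ (k + 1) * D0 := by
        rw [degreeOf_neg]
        refine (degreeOf_mul_le _ _ _).trans ?_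
        have := b1 dd h
        have := hdeg t h
        rw [add_mul, one_mul]
        omega
      have e1 : ((if t = 0 then 0 else a (dd + 1) * b (t - 1) : MvPolynomial σ K)).degreeOf h ≤
          (k + 1) * D0 := by
        split_ifs
        · rw [degreeOf_zero]; exact Nat.zero_le _
        · refine (degreeOf_mul_le _ _ _).trans ?_
          have := b1 (t - 1) h
          have := hdeg (dd + 1) h
          rw [add_mul, one_mul]
          omega
      exact (degreeOf_add_le _ _ _).trans (max_le e1 e2)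
    · intro t h hI
      dsimp only
      have e2 : (-(b dd * a t)).degreeOf h ≤ 0 := by
        rw [degreeOf_neg]
        refine (degreeOf_mul_le _ _ _).trans ?_
        rw [b2 dd h hI, hoff t h hI]
      have e1 : ((if t = 0 then 0 else a (dd + 1) * b (t - 1) : MvPolynomial σ K)).degreeOf h ≤
          0 := by
        split_ifs
        · rw [degreeOf_zero]
        · refine (degreeOf_mul_le _ _ _).trans ?_
          rw [b2 _ h hI, hoff _ h hI]
      exact Nat.le_zero.1 ((degreeOf_add_le _ _ _).trans (max_le e1 e2))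
    · intro t
      dsimp only
      refine Ig.add ?_ (((b3 dd).mul (hi t)).neg)
      split_ifs
      · exact Ig.zero
      · exact (hi _).mul (b3 _)
    · intro t
      dsimp only
      refine (hs_add _ _).trans ?_
      rw [hs_neg]
      have e2 : hs (b dd * a t) ≤ (2 * H) ^ k * H :=
        (hs_mul _ _).trans (mul_le_mul (b4 dd) (hh t) (hs_nonneg _) hk0)
      have e1 : hs (if t = 0 then 0 else a (dd + 1) * b (t - 1) : MvPolynomial σ K) ≤
          (2 * H) ^ k * H := by
        split_ifs
        · rw [hs_zero]; positivity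
        · rw [mul_comm]
          exact (hs_mul _ _).trans (mul_le_mul (b4 _) (hh _) (hs_nonneg _) hk0)
      rw [pow_succ]
      linarith
    · have h := step x (eval x0 (a (dd + 1))) dd (fun t => eval x0 (a t)) (fun t => eval x0 (b t))
        _ hrel b5
      rw [pow_succ, pow_succ]
      have e : eval x0 (a (dd + 1)) ^ k * eval x0 (a (dd + 1)) * (x ^ k * x) =
          eval x0 (a (dd + 1)) * (eval x0 (a (dd + 1)) ^ k * x ^ k * x) := by ring
      rw [e, h]
      refine Finset.sum_congr rfl fun t _ => ?_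
      congr 1
      rw [map_add, map_neg, map_mul, sub_eq_add_neg]
      congr 1
      split_ifs
      · rw [map_zero]
      · rw [map_mul]

/-- **PSDV.** -/
theorem t_PSDV : Pool.Agent.Helper68.VN.PSDV := by
  classical
  intro K _ _ σ _ _ D0 E
  obtain ⟨N, hN⟩ : ∃ N : ℕ, N = (D0 + 1) ^ Fintype.card σ := ⟨_, rfl⟩
  have hN1 : 1 ≤ N := by
    rw [hN]
    exact Nat.one_le_pow _ _ (Nat.succ_pos _)
  have hN1' : (1 : ℝ) ≤ N := by exact_mod_cast hN1
  have hlog : 0 ≤ Real.log (2 * N) := Real.log_nonneg (by linarith)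
  refine ⟨E * (Real.log (2 * N) + (N + 1)), by positivity, ?_⟩
  intro I0 x0 A i hA hi hno hlo
  obtain ⟨g, hg0, hgD, hgI, hgx, hgA⟩ := hlo
  have hP1 : 1 ≤ PH g := one_le_mulHeight _
  have hPA : PH g ≤ Real.exp A := by
    rw [← Real.log_le_iff_le_exp (by linarith)]
    exact hgA
  -- the slices do not vanish at x0
  have hsl : ∀ k, sl i k g ≠ 0 → eval x0 (sl i k g) ≠ 0 := by
    intro k hk h0
    refine hno ⟨sl i k g, hk, fun h => (degreeOf_sl i k g h).trans (hgD h), fun h hh => ?_, h0, ?_⟩
    · by_cases hhi : h = i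
      · rw [hhi]; exact degreeOf_sl_self i k g
      · have h2 : h ∉ insert i I0 := by
          rw [Finset.mem_insert]
          exact fun hm => hm.elim hhi hh
        have h1 := degreeOf_sl i k g h
        rw [hgI h h2] at h1
        exact Nat.le_zero.1 h1
    · refine le_trans (Real.log_le_log ?_ (PH_sl i k g)) hgA
      exact lt_of_lt_of_le zero_lt_one (one_le_mulHeight _)
  -- the largest index
  have hex : ∃ k ≤ D0, sl i k g ≠ 0 := by
    by_contra hcon
    push Not at hcon
    apply hg0
    rw [eq_sum_sl i g D0 (hgD i)]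
    refine Finset.sum_eq_zero fun k hk => ?_
    rw [hcon k (by have := Finset.mem_range.1 hk; omega), zero_mul]
  obtain ⟨k0, hk0D, hk0⟩ := hex
  obtain ⟨m, hm⟩ : ∃ m, m = Nat.findGreatest (fun k => sl i k g ≠ 0) D0 := ⟨_, rfl⟩
  have hm0 : sl i m g ≠ 0 := by
    rw [hm]
    exact Nat.findGreatest_spec (P := fun k => sl i k g ≠ 0) hk0D hk0
  have hmD : m ≤ D0 := by
    rw [hm]
    exact Nat.findGreatest_le D0
  have hmx : ∀ k, m < k → sl i k g = 0 := by
    intro k hk
    by_contra hne
    by_cases hkD : k ≤ D0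
    · rw [hm] at hk
      exact Nat.findGreatest_is_greatest hk hkD hne
    · exact hne (sl_eq_zero i k g (by have := hgD i; omega))
  have hgm : g = ∑ k ∈ Finset.range (m + 1), sl i k g * X i ^ k := by
    conv_lhs => rw [eq_sum_sl i g D0 (hgD i)]
    symm
    refine Finset.sum_subset (fun k hk => ?_) (fun k _ hk => ?_)
    · have := Finset.mem_range.1 hk
      exact Finset.mem_range.2 (by omega)
    · have : ¬ k < m + 1 := fun h => hk (Finset.mem_range.2 h)
      rw [hmx k (by omega), zero_mul]
  have hval : ∑ k ∈ Finset.range (m + 1), eval x0 (sl i k g) * x0 i ^ k = 0 := by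
    rw [← hgx]
    conv_rhs => rw [hgm]
    rw [map_sum]
    refine Finset.sum_congr rfl fun k _ => ?_
    rw [map_mul, map_pow, eval_X]
  have hmne : m ≠ 0 := by
    intro h0
    rw [h0] at hval hm0
    rw [zero_add, Finset.sum_range_one, pow_zero, mul_one] at hval
    exact hsl 0 hm0 hval
  obtain ⟨dd, rfl⟩ := Nat.exists_eq_succ_of_ne_zero hmne
  -- scaling
  obtain ⟨r, hr0, hr⟩ := scal' D0 g hg0 hgD
  rw [← hN] at hr
  obtain ⟨a, ha⟩ : ∃ a : ℕ → MvPolynomial σ K, a = fun k => C r * sl i k g := ⟨_, rfl⟩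
  have ha' : ∀ k, a k = C r * sl i k g := fun k => by rw [ha]
  have hac : ∀ k s, coeff s (a k) = if s i = 0 then r * coeff (s + Finsupp.single i k) g else 0 := by
    intro k s
    rw [ha' k, coeff_C_mul, coeff_sl]
    split_ifs
    · rfl
    · rw [mul_zero]
  have hdeg' : ∀ k h, (a k).degreeOf h ≤ (sl i k g).degreeOf h := by
    intro k h
    rw [ha' k]
    exact degreeOf_C_mul_le _ _ _
  have hdeg : ∀ k h, (a k).degreeOf h ≤ D0 := fun k h =>
    (hdeg' k h).trans ((degreeOf_sl i k g h).trans (hgD h))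
  have hoff : ∀ k h, h ∉ I0 → (a k).degreeOf h = 0 := by
    intro k h hh
    refine Nat.le_zero.1 ((hdeg' k h).trans ?_)
    by_cases hhi : h = i
    · rw [hhi, degreeOf_sl_self i k g]
    · have h2 : h ∉ insert i I0 := by
        rw [Finset.mem_insert]
        exact fun hm => hm.elim hhi hh
      rw [← hgI h h2]
      exact degreeOf_sl i k g h
  have hint : ∀ k, Ig (a k) := by
    intro k s
    rw [hac]
    split_ifs
    · exact (hr _).1
    · exact isIntegral_zero
  obtain ⟨H, hH⟩ : ∃ H : ℝ, H = N * Real.exp A ^ (N + 1) := ⟨_, rfl⟩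
  have hE1 : (1 : ℝ) ≤ Real.exp A := Real.one_le_exp hA
  have hH1 : 1 ≤ H := by
    rw [hH]
    exact one_le_mul_of_one_le_of_one_le hN1' (one_le_pow₀ hE1)
  have hhs : ∀ k, hs (a k) ≤ H := by
    intro k
    have h1 : ∀ s ∈ (a k).support, NumberField.house (coeff s (a k)) ≤ Real.exp A ^ (N + 1) := by
      intro s _
      rw [hac]
      split_ifs
      · exact (hr _).2.trans (pow_le_pow_left₀ (by linarith) hPA _)
      · rw [house_zero']; positivity
    unfold hs
    refine (Finset.sum_le_sum h1).trans ?_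
    rw [Finset.sum_const, nsmul_eq_mul, hH]
    refine mul_le_mul_of_nonneg_right ?_ (by positivity)
    have h2 := card_support' D0 (a k) (hdeg k)
    rw [← hN] at h2
    exact_mod_cast h2
  have hrel : ∑ t ∈ Finset.range (dd + 1), eval x0 (a t) * x0 i ^ t +
      eval x0 (a (dd + 1)) * x0 i ^ (dd + 1) = 0 := by
    rw [← Finset.sum_range_succ (fun t => eval x0 (a t) * x0 i ^ t) (dd + 1)]
    have e : ∑ t ∈ Finset.range (dd + 1 + 1), eval x0 (a t) * x0 i ^ t =
        r * ∑ t ∈ Finset.range (dd + 1 + 1), eval x0 (sl i t g) * x0 i ^ t := by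
      rw [Finset.mul_sum]
      refine Finset.sum_congr rfl fun t _ => ?_
      rw [ha' t, map_mul, eval_C]
      ring
    rw [e]
    have : ∑ t ∈ Finset.range (dd + 1 + 1), eval x0 (sl i t g) * x0 i ^ t = 0 := hval
    rw [this, mul_zero]
  have hane : eval x0 (a (dd + 1)) ≠ 0 := by
    rw [ha' (dd + 1), map_mul, eval_C]
    exact mul_ne_zero hr0 (hsl _ hm0)
  choose b b1 b2 b3 b4 b5 using
    division I0 D0 dd x0 (x0 i) H hH1 a hdeg hoff hint hhs hrel
  have hfin : (2 * H) ^ E ≤ Real.exp (E * (Real.log (2 * N) + (N + 1)) * (1 + A)) := by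
    have e1 : 2 * H ≤ Real.exp ((Real.log (2 * N) + (N + 1)) * (1 + A)) := by
      have e2 : 2 * H = Real.exp (Real.log (2 * N) + (N + 1) * A) := by
        rw [Real.exp_add, Real.exp_log (by linarith), hH, ← Real.exp_nat_mul]
        push_cast
        ring
      rw [e2]
      apply Real.exp_le_exp.2
      nlinarith
    calc (2 * H) ^ E ≤ Real.exp ((Real.log (2 * N) + (N + 1)) * (1 + A)) ^ E :=
          pow_le_pow_left₀ (by linarith) e1 _
      _ = _ := by
          rw [← Real.exp_nat_mul]
          congr 1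
          ring
  have h2H : 1 ≤ 2 * H := by linarith
  refine ⟨eval x0 (a (dd + 1)) ^ E, fun k t => if k ≤ E ∧ t < dd + 1 then
    a (dd + 1) ^ (E - k) * b k t else 0, pow_ne_zero _ hane, ?_, ?_, ?_, ?_⟩
  · intro k t h
    dsimp only
    split_ifs with hc
    · refine (degreeOf_mul_le _ _ _).trans ?_
      have e1 := (degreeOf_pow_le h (a (dd + 1)) (E - k)).trans
        (Nat.mul_le_mul_left (E - k) (hdeg (dd + 1) h))
      have e2 := b1 k t h
      calc _ ≤ (E - k) * D0 + k * D0 := Nat.add_le_add e1 e2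
        _ = E * D0 := by rw [← add_mul, Nat.sub_add_cancel hc.1]
    · rw [degreeOf_zero]; exact Nat.zero_le _
  · intro k t h hh
    dsimp only
    split_ifs with hc
    · refine Nat.le_zero.1 ((degreeOf_mul_le _ _ _).trans ?_)
      have e1 := (degreeOf_pow_le h (a (dd + 1)) (E - k))
      rw [hoff (dd + 1) h hh, mul_zero] at e1
      rw [b2 k t h hh, add_zero]
      exact e1
    · exact degreeOf_zero h
  · intro k t s
    dsimp only
    split_ifs with hc
    · refine ⟨(((hint (dd + 1)).pow (E - k)).mul (b3 k t)) s, ?_⟩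
      refine (le_hs _ s).trans (le_trans ?_ hfin)
      refine (hs_mul _ _).trans ?_
      have e1 : hs (a (dd + 1) ^ (E - k)) ≤ (2 * H) ^ (E - k) :=
        (hs_pow _ _).trans (pow_le_pow_left₀ (hs_nonneg _) ((hhs _).trans (by linarith)) _)
      calc hs (a (dd + 1) ^ (E - k)) * hs (b k t) ≤ (2 * H) ^ (E - k) * (2 * H) ^ k :=
            mul_le_mul e1 (b4 k t) (hs_nonneg _) (by positivity)
        _ = (2 * H) ^ E := by rw [← pow_add, Nat.sub_add_cancel hc.1]
    · rw [coeff_zero]
      refine ⟨isIntegral_zero, ?_⟩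
      rw [house_zero']
      exact (Real.exp_pos _).le
  · intro k hk
    have e1 : eval x0 (a (dd + 1)) ^ E * x0 i ^ k =
        eval x0 (a (dd + 1)) ^ (E - k) * (eval x0 (a (dd + 1)) ^ k * x0 i ^ k) := by
      rw [← mul_assoc, ← pow_add, Nat.sub_add_cancel hk]
    rw [e1, b5 k, Finset.mul_sum]
    have hsub : Finset.range (dd + 1) ⊆ Finset.range (D0 + 1) := by
      intro t ht
      have := Finset.mem_range.1 ht
      exact Finset.mem_range.2 (by omega)
    rw [← Finset.sum_subset hsub]
    · refine Finset.sum_congr rfl fun t ht => ?_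
      dsimp only
      rw [if_pos ⟨hk, Finset.mem_range.1 ht⟩, map_mul, map_pow]
      ring
    · intro t _ ht
      dsimp only
      rw [if_neg, map_zero, zero_mul]
      rintro ⟨_, h⟩
      exact ht (Finset.mem_range.2 h)

end

end Pool.Agent.Helper41.VN
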